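import Pool.Agent.U188.SC.Core

/-!
# Sections which are given locally by points, and coverings of degree a power of two
-/

set_option autoImplicit false
set_option linter.all false

namespace Pool.Agent.U188.SC

open NumberField IsDedekindDomain WeierstrassCurve MvPolynomial
open Pool.Agent.TH115.GD (Pt Comp)
open Pool.Agent.TH954 (pm AlgPt Compat pm_pm pm_injective crd OnX MultiHom
  SAct GeoPlc Plc exists_redM torsion_mem_sub toSAct eqv
  toSAct_s GalSection red_crd onX_red crd_pm exists_div_unram)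
open Pool.Agent.TH942 (sw)
open Pool.Agent.Results.MP_308fa9_nt.PositiveProportionDescent (curve Good cv far_zero
  curve_base cv_two cv_coe valueAtO aeval_O)
open Pool.Agent.U188.PP (Far un_of cong_of far_pow zero_of_le)
open scoped Classical

section

variable {K F M B : Type} [Field K] [NumberField K] [Field F] [Field M] [Field B] [Algebra K F]
  [Algebra F M] [Algebra K M] [IsScalarTower K F M] [Algebra K B] [IsAlgClosure K B]
  [Algebra.IsAlgebraic F M]

/-- The point `Q` is fixed by all `s g`. -/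
def FixedBy (s : GalSection K F M B) (E : WeierstrassCurve K)
    (Q : (E.baseChange M).toAffine.Point) : Prop :=
  ∀ g : B ≃ₐ[K] B, pm E ((s.s g : M →ₐ[F] M).restrictScalars K) Q = Q

/-- The section `s` lifts to the `N`-covering of the point `P`: some `N`-th division point of `P` is
fixed by all `s g`. -/
def LiftsTo (s : GalSection K F M B) (E : WeierstrassCurve K)
    (P : (E.baseChange F).toAffine.Point) (N : ℕ) : Prop :=
  ∃ Q : (E.baseChange M).toAffine.Point, N • Q = pm E (IsScalarTower.toAlgHom K F M) P ∧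
    FixedBy s E Q

lemma geo (s : GalSection K F M B)
    (pl : ∀ v : HeightOneSpectrum (𝓞 K), Plc K M (AlgebraicClosure (v.adicCompletion K)))
    (hp : ∀ v, s.GivenBy (v.adicCompletion K) (pl v)) (v : HeightOneSpectrum (𝓞 K)) :
    GeoPlc (toSAct s) (pl v) := by
  intro σ τ hστ x
  refine hp v σ ((eqv K B).autCongr τ) ?_ x _ ⟨x.2, rfl⟩
  intro z c hc
  obtain ⟨y, rfl⟩ := (eqv K B).surjective z
  have e1 : (pl v).val ((toSAct s).j y) ((pl v).iot (toSAct s).j y) := Plc.val_j _ y
  have e2 : (pl v).val ((toSAct s).j (τ y)) ((pl v).iot (toSAct s).j (τ y)) := Plc.val_j _ (τ y)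
  have e3 : s.j ((eqv K B).autCongr τ (eqv K B y)) = (toSAct s).j (τ y) := by
    change s.j (eqv K B (τ ((eqv K B).symm (eqv K B y)))) = _
    rw [AlgEquiv.symm_apply_apply]
    rfl
  have e4 : (pl v).iot (toSAct s).j y = c := e1.unique hc
  rw [e3, ← e4, ← hστ y]
  exact e2

lemma fixedP (s : GalSection K F M B) {a b : K} (P : ((sw a b).baseChange F).toAffine.Point)
    (τ : AlgebraicClosure K ≃ₐ[K] AlgebraicClosure K) :
    (toSAct s).pt a b τ (pm (sw a b) (IsScalarTower.toAlgHom K F M) P) =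
      pm (sw a b) (IsScalarTower.toAlgHom K F M) P := by
  change pm (sw a b) _ (pm (sw a b) _ P) = pm (sw a b) _ P
  rw [pm_pm]
  congr 2
  apply AlgHom.ext
  intro x
  exact (s.s ((eqv K B).autCongr τ)).commutes x

lemma disc_ne {p : ℤ × ℤ} (hG : Good K p) : 4 * (p.1 : K) ^ 3 + 27 * (p.2 : K) ^ 2 ≠ 0 := by
  have := hG.elliptic
  intro h
  apply this
  exact_mod_cast h

/-- the section lifts to the coverings -/
theorem core {p : ℤ × ℤ} (hG : Good K p) (w : HeightOneSpectrum (𝓞 K))
    (hw : w.valuation K 2 = WithZero.exp (-1 : ℤ)) (s : GalSection K F M B)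
    (pl : ∀ v : HeightOneSpectrum (𝓞 K), Plc K M (AlgebraicClosure (v.adicCompletion K)))
    (hp : ∀ v, s.GivenBy (v.adicCompletion K) (pl v))
    (P : ((sw (p.1 : K) (p.2 : K)).baseChange F).toAffine.Point) {k : ℕ}
    (Q : ((sw (p.1 : K) (p.2 : K)).baseChange M).toAffine.Point)
    (hQ : 2 ^ k • Q = pm (sw (p.1 : K) (p.2 : K)) (IsScalarTower.toAlgHom K F M) P) :
    ∃ Q' : ((sw (p.1 : K) (p.2 : K)).baseChange M).toAffine.Point,
      2 ^ k • Q' = pm (sw (p.1 : K) (p.2 : K)) (IsScalarTower.toAlgHom K F M) P ∧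
      ∀ τ, (toSAct s).pt (p.1 : K) (p.2 : K) τ Q' = Q' :=
  lifts hG w hw (toSAct s) (fixedP s P) hQ
    (fun T hT => torsion_mem_sub (disc_ne hG)
      ((IsScalarTower.toAlgHom K M (AlgebraicClosure M)) : M →ₐ[K] AlgebraicClosure M)
      (toSAct s).j (2 ^ k) Nat.one_le_two_pow T hT) pl (geo s pl hp)

lemma lifted {p : ℤ × ℤ} (s : GalSection K F M B)
    (P : ((sw (p.1 : K) (p.2 : K)).baseChange F).toAffine.Point) {k : ℕ}
    (h : ∃ Q' : ((sw (p.1 : K) (p.2 : K)).baseChange M).toAffine.Point,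
      2 ^ k • Q' = pm (sw (p.1 : K) (p.2 : K)) (IsScalarTower.toAlgHom K F M) P ∧
      ∀ τ, (toSAct s).pt (p.1 : K) (p.2 : K) τ Q' = Q') :
    LiftsTo s (sw (p.1 : K) (p.2 : K)) P (2 ^ k) := by
  obtain ⟨Q, h1, h2⟩ := h
  refine ⟨Q, h1, fun g => ?_⟩
  have h3 := h2 ((eqv K B).autCongr.symm g)
  have h4 : (toSAct s).pt (p.1 : K) (p.2 : K) ((eqv K B).autCongr.symm g) Q =
      pm (sw (p.1 : K) (p.2 : K)) ((s.s g : M →ₐ[F] M).restrictScalars K) Q := by
    unfold SAct.pt
    congr 2
    apply AlgHom.ext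
    intro z
    exact toSAct_s s g z
  rw [← h4, h3]

/-- the local points of a section: rational points over the completions, divisible by the powers of
two to which the section lifts -/
theorem locals {p : ℤ × ℤ} (hG : Good K p) (s : GalSection K F M B)
    {v : HeightOneSpectrum (𝓞 K)} {pl : Plc K M (AlgebraicClosure (v.adicCompletion K))}
    (hp : GeoPlc (toSAct s) pl)
    (P : ((sw (p.1 : K) (p.2 : K)).baseChange F).toAffine.Point) :
    ∃ Pv : ((sw (p.1 : K) (p.2 : K)).baseChange (v.adicCompletion K)).toAffine.Point,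
      (∃ u : M, u ≠ 0 ∧ ∀ j, ∃ h : u * crd (pm (sw (p.1 : K) (p.2 : K))
          (IsScalarTower.toAlgHom K F M) P) j ∈ pl.W, pl.ρ ⟨_, h⟩ =
          algebraMap (v.adicCompletion K) (AlgebraicClosure (v.adicCompletion K)) (crd Pv j)) ∧
      ∀ k : ℕ, (∃ Q' : ((sw (p.1 : K) (p.2 : K)).baseChange M).toAffine.Point,
        2 ^ k • Q' = pm (sw (p.1 : K) (p.2 : K)) (IsScalarTower.toAlgHom K F M) P ∧
        ∀ τ, (toSAct s).pt (p.1 : K) (p.2 : K) τ Q' = Q') →
        ∃ z : ((sw (p.1 : K) (p.2 : K)).baseChange (v.adicCompletion K)).toAffine.Point,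
          2 ^ k • z = Pv := by
  have := charZero_comp v
  have hc : CharZero (AlgebraicClosure (v.adicCompletion K)) :=
    charZero_of_injective_algebraMap
        (algebraMap (v.adicCompletion K) (AlgebraicClosure (v.adicCompletion K))).injective
  obtain ⟨red, h1, h2⟩ := exists_redM pl (disc_ne hG)
  obtain ⟨Pv, hPv⟩ := local_div (p := p) (toSAct s) hp h1 h2 (fixedP s P)
  refine ⟨Pv, ?_, fun k => ?_⟩
  · obtain ⟨u, hu0, hu⟩ := red_crd (pl := pl) (red := red) (map_zero red) h1 h2
      (pm (sw (p.1 : K) (p.2 : K)) (IsScalarTower.toAlgHom K F M) P)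
    refine ⟨u, hu0, fun j => ?_⟩
    obtain ⟨h3, h4⟩ := hu j
    refine ⟨h3, h4.trans ?_⟩
    rw [← hPv]
    exact crd_pm _ _ _
  · rintro ⟨Q', hQ', hf⟩
    obtain ⟨z, hz⟩ := local_div (p := p) (toSAct s) hp h1 h2 hf
    refine ⟨z, ?_⟩
    apply pm_injective (E := sw (p.1 : K) (p.2 : K))
      (IsScalarTower.toAlgHom K (v.adicCompletion K) (AlgebraicClosure (v.adicCompletion K)))
    have e1 : pm (sw (p.1 : K) (p.2 : K)) (IsScalarTower.toAlgHom K (v.adicCompletion K)
        (AlgebraicClosure (v.adicCompletion K))) z = red Q' := hz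
    have e2 : pm (sw (p.1 : K) (p.2 : K)) (IsScalarTower.toAlgHom K (v.adicCompletion K)
        (AlgebraicClosure (v.adicCompletion K))) Pv = red (pm (sw (p.1 : K) (p.2 : K))
          (IsScalarTower.toAlgHom K F M) P) := hPv
    rw [map_nsmul, e1, e2, ← hQ', map_nsmul]

/-- the local point is near the point at infinity -/
theorem far_loc {p : ℤ × ℤ} (hG : Good K p) {w : HeightOneSpectrum (𝓞 K)}
    (hw : w.valuation K 2 = WithZero.exp (-1 : ℤ)) {k : ℕ}
    {Pv : ((sw (p.1 : K) (p.2 : K)).baseChange (w.adicCompletion K)).toAffine.Point}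
    (h : ∃ z : ((sw (p.1 : K) (p.2 : K)).baseChange (w.adicCompletion K)).toAffine.Point,
          2 ^ (k + 1) • z = Pv) :
    Far (cv w) (k + 1) (W := (curve K p).baseChange (Comp (𝓞 K) K w)) Pv := by
  obtain ⟨z, rfl⟩ := h
  exact far_pow (W := (curve K p).baseChange (Comp (𝓞 K) K w)) (un_of (cv_two hw))
    (curve_base p _) (cong_of hG.odd hG.cong) k z

end

end Pool.Agent.U188.SC
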