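import Pool.Agent.TH954.Descent
import Pool.Agent.Results.MP_308fa9_nt.PositiveProportionDescent

/-!
# Cocycles over algebraic closures and over separable closures

The cocycles with values in the points of order `2 ^ k` over an algebraic closure of `K` which are
locally trivial at the finite places are coboundaries of points of order `2 ^ k`, for the curves of
`MP_308fa9_nt.PositiveProportionDescent`.
-/

set_option autoImplicit false
set_option linter.all false

namespace Pool.Agent.U188.SC

open NumberField IsDedekindDomain WeierstrassCurve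
open Pool.Agent.TH115.GD (Sep Pt IsCoc LocTriv Comp rs)
open Pool.Agent.TH954 (pm AlgPt Compat IsCocycle TrivialOver pm_pm)
open Pool.Agent.Results.MP_308fa9_nt.PositiveProportionDescent (curve Good SelTwoZero)
open scoped Classical

section

variable (K : Type) [Field K] [CharZero K]

instance sepClosureAlg : IsSepClosure K (AlgebraicClosure K) where
  sep_closed := inferInstance
  separable := inferInstance

/-- the separable closure and the algebraic closure -/
noncomputable def eqs : Sep K ≃ₐ[K] AlgebraicClosure K :=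
  IsSepClosure.equiv K (Sep K) (AlgebraicClosure K)

end

variable {K : Type} [Field K] [CharZero K] (E : WeierstrassCurve K)

lemma pm_eq_act {L₁ L₂ : Type} [Field L₁] [Algebra K L₁] [Field L₂] [Algebra K L₂]
    (f : L₁ →ₐ[K] L₂) (P : (E.baseChange L₁).toAffine.Point) :
    pm E f P = Pool.Agent.TH115.GD.act E f P := rfl

/-- the cocycle over the separable closure -/
noncomputable def tr (ξ : (AlgebraicClosure K ≃ₐ[K] AlgebraicClosure K) → AlgPt E K) :
    (Sep K ≃ₐ[K] Sep K) → Pt E (Sep K) :=
  fun σ => pm E ((eqs K).symm : AlgebraicClosure K →ₐ[K] Sep K) (ξ ((eqs K).autCongr σ))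

lemma tr_coc {ξ : (AlgebraicClosure K ≃ₐ[K] AlgebraicClosure K) → AlgPt E K}
    (h : IsCocycle E ξ) : IsCoc E (tr E ξ) := by
  obtain ⟨h1, F, hF, h2⟩ := h
  refine ⟨?_, fun σ τ => ?_⟩
  · rw [IsLocallyConstant.iff_exists_open]
    intro σ
    let F' : IntermediateField K (Sep K) := F.map ((eqs K).symm : AlgebraicClosure K →ₐ[K] Sep K)
    have hF' : FiniteDimensional K F' :=
      (IntermediateField.equivMap F ((eqs K).symm : AlgebraicClosure K →ₐ[K] Sep K)
        ).toLinearEquiv.finiteDimensional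
    have ho : IsOpen (F'.fixingSubgroup : Set (Sep K ≃ₐ[K] Sep K)) :=
      F'.fixingSubgroup_isOpen
    refine ⟨(fun τ => σ⁻¹ * τ) ⁻¹' (F'.fixingSubgroup : Set (Sep K ≃ₐ[K] Sep K)),
      ho.preimage (continuous_const.mul continuous_id), ?_, fun τ hτ => ?_⟩
    · show σ⁻¹ * σ ∈ F'.fixingSubgroup
      rw [inv_mul_cancel]
      exact one_mem _
    · unfold tr
      congr 1
      refine h2 _ _ fun x hx => ?_
      have h3 : (σ⁻¹ * τ) ((eqs K).symm x) = (eqs K).symm x :=
        (IntermediateField.mem_fixingSubgroup_iff _ _).1 hτ _ ⟨x, hx, rfl⟩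
      show (eqs K) (τ ((eqs K).symm x)) = (eqs K) (σ ((eqs K).symm x))
      congr 1
      have h4 := congrArg σ h3
      rw [← AlgEquiv.mul_apply, mul_inv_cancel_left] at h4
      exact h4
  · unfold tr
    rw [map_mul, h1, map_add]
    congr 1
    show pm E _ (pm E _ _) = pm E _ (pm E _ _)
    rw [pm_pm, pm_pm]
    congr 2
    apply AlgHom.ext
    intro x
    show (eqs K).symm ((eqs K) (σ ((eqs K).symm x))) = σ ((eqs K).symm x)
    rw [AlgEquiv.symm_apply_apply]

lemma tr_loc {ξ : (AlgebraicClosure K ≃ₐ[K] AlgebraicClosure K) → AlgPt E K}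
    {L : Type} [Field L] [CharZero L] [Algebra K L] (h : TrivialOver E ξ L) :
    LocTriv E L (Sep L) (tr E ξ) := by
  obtain ⟨ι, Q, h⟩ := h
  let eL : AlgebraicClosure L →ₐ[K] Sep L :=
    ((eqs L).symm : AlgebraicClosure L →ₐ[L] Sep L).restrictScalars K
  refine ⟨eL.comp (ι.comp (eqs K : Sep K →ₐ[K] AlgebraicClosure K)), pm E eL Q, fun τ σ hτ => ?_⟩
  have h1 := h ((eqs L).autCongr τ) ((eqs K).autCongr σ) (fun z => by
    have h2 := hτ ((eqs K).symm z)
    have e1 : (eL.comp (ι.comp (eqs K : Sep K →ₐ[K] AlgebraicClosure K))) ((eqs K).symm z) =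
        (eqs L).symm (ι z) := by
      show (eqs L).symm (ι ((eqs K) ((eqs K).symm z))) = _
      rw [AlgEquiv.apply_symm_apply]
    rw [e1] at h2
    show ι ((eqs K) (σ ((eqs K).symm z))) = (eqs L) (τ ((eqs L).symm (ι z)))
    rw [h2]
    show _ = (eqs L) ((eqs L).symm (ι ((eqs K) (σ ((eqs K).symm z)))))
    rw [AlgEquiv.apply_symm_apply])
  have e2 : Pool.Agent.TH115.GD.act E
      ((eL.comp (ι.comp (eqs K : Sep K →ₐ[K] AlgebraicClosure K))).restrictScalars K)
      (tr E ξ σ) = pm E eL (pm E ι (ξ ((eqs K).autCongr σ))) := by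
    unfold tr
    rw [← pm_eq_act, pm_pm, pm_pm]
    congr 2
    apply AlgHom.ext
    intro x
    show eL (ι ((eqs K) ((eqs K).symm x))) = eL (ι x)
    rw [AlgEquiv.apply_symm_apply]
  rw [e2, h1, map_sub]
  congr 1
  show pm E _ (pm E _ _) = pm E _ (pm E _ _)
  rw [pm_pm, pm_pm]
  congr 2
  apply AlgHom.ext
  intro x
  show (eqs L).symm ((eqs L) (τ ((eqs L).symm x))) = τ ((eqs L).symm x)
  rw [AlgEquiv.symm_apply_apply]

end Pool.Agent.U188.SC
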