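import Pool.Agent.U188.SC.Bridge
import Pool.Agent.TH954.SEt2

/-!
# Sections lift to the coverings of degree a power of two
-/

set_option autoImplicit false
set_option linter.all false

namespace Pool.Agent.U188.SC

open NumberField IsDedekindDomain WeierstrassCurve MvPolynomial
open Pool.Agent.TH115.GD (Sep Pt IsCoc LocTriv Comp rs fixed_point)
open Pool.Agent.TH954 (pm AlgPt Compat IsCocycle TrivialOver pm_pm pm_injective crd OnX MultiHom
  SAct GeoPlc Plc exists_redM exists_cocycle cocycle_local exists_of_fixed torsion_mem_sub toSAct eqv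
  toSAct_s GalSection red_crd onX_red crd_pm act_sub)
open Pool.Agent.Results.MP_308fa9_nt.PositiveProportionDescent (curve Good SelTwoZero cv far_zero
  curve_base cv_two cv_coe valueAtO aeval_O)
open Pool.Agent.TH942 (sw)
open Pool.Agent.U188.PP (Un Cong Far un_of cong_of far_pow lift_div zero_of_le)
open scoped Classical

variable {K : Type} [Field K] [NumberField K]

lemma charZero_comp (v : HeightOneSpectrum (𝓞 K)) : CharZero (v.adicCompletion K) :=
  charZero_of_injective_algebraMap (algebraMap K (v.adicCompletion K)).injective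

/-- the Selmer groups of the multiplications by powers of two are trivial -/
theorem sel_pow {p : ℤ × ℤ} (hG : Good K p) (w : HeightOneSpectrum (𝓞 K))
    (hw : w.valuation K 2 = WithZero.exp (-1 : ℤ)) {k : ℕ}
    {ξ : (AlgebraicClosure K ≃ₐ[K] AlgebraicClosure K) → AlgPt (curve K p) K}
    (hξ : IsCocycle (curve K p) ξ) (h0 : ∀ σ, 2 ^ k • ξ σ = 0)
    (hl : ∀ v : HeightOneSpectrum (𝓞 K), TrivialOver (curve K p) ξ (v.adicCompletion K)) :
    ∃ R : AlgPt (curve K p) K, 2 ^ k • R = 0 ∧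
      ∀ σ, ξ σ = Pool.Agent.TH954.act (curve K p) σ R - R := by
  obtain ⟨hsub, hsha⟩ := Pool.Agent.U188.PP.conseq K (𝓞 K) w hw hG.elliptic hG.odd
    hG.cong hG.sel
  have hsub' : Subsingleton (Pt (curve K p) K) := hsub
  have h0' : ∀ σ, 2 ^ k • tr (curve K p) ξ σ = 0 := by
    intro σ
    unfold tr
    rw [← map_nsmul, h0, map_zero]
  obtain ⟨R, hR⟩ : ∃ R : Pt (curve K p) (Sep K), ∀ σ,
      tr (curve K p) ξ σ = Pool.Agent.TH115.GD.act (curve K p) (rs K σ) R - R :=
    hsha (tr (curve K p) ξ) (tr_coc (curve K p) hξ) (fun v => by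
      have := charZero_comp v
      exact tr_loc (L := v.adicCompletion K) (curve K p) (hl v)) ⟨k, 0, fun σ => by
      rw [map_zero, sub_zero]
      exact h0' σ⟩
  have hR0 : 2 ^ k • R = 0 := by
    obtain ⟨R₀, hR₀⟩ := fixed_point (K := K) (F := K) (Ω := Sep K) (curve K p) (2 ^ k • R) (by
      intro τ
      have h5 := h0' τ
      rw [hR τ, smul_sub, sub_eq_zero, ← map_nsmul] at h5
      exact h5)
    have h6 : R₀ = 0 := Subsingleton.elim (h := hsub') R₀ 0
    rw [← hR₀, h6, map_zero]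
  refine ⟨pm (curve K p) (eqs K : Sep K →ₐ[K] AlgebraicClosure K) R, ?_, fun σ => ?_⟩
  · rw [← map_nsmul, hR0, map_zero]
  · apply pm_injective (E := curve K p) ((eqs K).symm : AlgebraicClosure K →ₐ[K] Sep K)
    have h1 := hR ((eqs K).autCongr.symm σ)
    have h2 : tr (curve K p) ξ ((eqs K).autCongr.symm σ) =
        pm (curve K p) ((eqs K).symm : AlgebraicClosure K →ₐ[K] Sep K) (ξ σ) := by
      unfold tr
      rw [MulEquiv.apply_symm_apply]
    rw [← h2, h1, map_sub, pm_pm]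
    have h3 : pm (curve K p) (((eqs K).symm : AlgebraicClosure K →ₐ[K] Sep K).comp
        (eqs K : Sep K →ₐ[K] AlgebraicClosure K)) R = R := by
      have h4 : (((eqs K).symm : AlgebraicClosure K →ₐ[K] Sep K).comp
          (eqs K : Sep K →ₐ[K] AlgebraicClosure K)) = AlgHom.id K (Sep K) := by
        apply AlgHom.ext
        intro x
        exact (eqs K).symm_apply_apply x
      rw [h4]
      cases R <;> rfl
    rw [h3]
    congr 1
    show _ = pm (curve K p) _ (pm (curve K p) _ (pm (curve K p) _ R))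
    rw [pm_pm, pm_pm]
    rfl

/-- the same with the notation of the library -/
theorem sel_pow' {p : ℤ × ℤ} (hG : Good K p) (w : HeightOneSpectrum (𝓞 K))
    (hw : w.valuation K 2 = WithZero.exp (-1 : ℤ)) {k : ℕ}
    {ξ : (AlgebraicClosure K ≃ₐ[K] AlgebraicClosure K) → AlgPt (sw (p.1 : K) (p.2 : K)) K}
    (hξ : IsCocycle (sw (p.1 : K) (p.2 : K)) ξ) (h0 : ∀ σ, 2 ^ k • ξ σ = 0)
    (hl : ∀ v : HeightOneSpectrum (𝓞 K),
      TrivialOver (sw (p.1 : K) (p.2 : K)) ξ (v.adicCompletion K)) :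
    ∃ R : AlgPt (sw (p.1 : K) (p.2 : K)) K, 2 ^ k • R = 0 ∧
      ∀ σ, ξ σ = Pool.Agent.TH954.act (sw (p.1 : K) (p.2 : K)) σ R - R :=
  sel_pow hG w hw hξ h0 hl

variable {M : Type} [Field M] [Algebra K M]

/-- the section lifts to the coverings -/
theorem lifts {p : ℤ × ℤ} (hG : Good K p) (w : HeightOneSpectrum (𝓞 K))
    (hw : w.valuation K 2 = WithZero.exp (-1 : ℤ)) (A : SAct K M)
    {P : ((sw (p.1 : K) (p.2 : K)).baseChange M).toAffine.Point}
    (hP : ∀ τ, A.pt (p.1 : K) (p.2 : K) τ P = P) {k : ℕ}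
    {Q : ((sw (p.1 : K) (p.2 : K)).baseChange M).toAffine.Point} (hQ : 2 ^ k • Q = P)
    (htor : ∀ T : ((sw (p.1 : K) (p.2 : K)).baseChange M).toAffine.Point, 2 ^ k • T = 0 →
      ∃ T0, pm (sw (p.1 : K) (p.2 : K)) A.j T0 = T)
    (pl : ∀ v : HeightOneSpectrum (𝓞 K), Plc K M (AlgebraicClosure (v.adicCompletion K)))
    (hpl : ∀ v, GeoPlc A (pl v)) :
    ∃ Q' : ((sw (p.1 : K) (p.2 : K)).baseChange M).toAffine.Point, 2 ^ k • Q' = P ∧
      ∀ τ, A.pt (p.1 : K) (p.2 : K) τ Q' = Q' := by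
  have hD : 4 * (p.1 : K) ^ 3 + 27 * (p.2 : K) ^ 2 ≠ 0 := by
    have := hG.elliptic
    intro h
    apply this
    exact_mod_cast h
  have hcv' : ∀ v : HeightOneSpectrum (𝓞 K), CharZero (AlgebraicClosure (v.adicCompletion K)) :=
    fun v => by
      have := charZero_comp v
      exact charZero_of_injective_algebraMap
        (algebraMap (v.adicCompletion K) (AlgebraicClosure (v.adicCompletion K))).injective
  choose red h1 h2 using fun v => exists_redM (pl v) hD
  obtain ⟨ξ, hξ, hξN, hξj⟩ := exists_cocycle A hQ hP htor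
  obtain ⟨R, hR0, hR⟩ := sel_pow' hG w hw (k := k) (ξ := ξ) hξ hξN (fun v =>
    ⟨(pl v).iot A.j, red v Q, (cocycle_local A (hpl v) (h1 v) (h2 v) hξj).1⟩)
  refine ⟨Q - pm (sw (p.1 : K) (p.2 : K)) A.j R, ?_, fun τ => ?_⟩
  · rw [smul_sub, hQ, ← map_nsmul, hR0, map_zero, sub_zero]
  · have e1 : A.pt (p.1 : K) (p.2 : K) τ (Q - pm (sw (p.1 : K) (p.2 : K)) A.j R) =
        A.pt (p.1 : K) (p.2 : K) τ Q -
          A.pt (p.1 : K) (p.2 : K) τ (pm (sw (p.1 : K) (p.2 : K)) A.j R) := map_sub _ _ _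
    have e2 : A.pt (p.1 : K) (p.2 : K) τ Q = pm (sw (p.1 : K) (p.2 : K)) A.j (ξ τ) + Q := by
      rw [hξj τ, sub_add_cancel]
    rw [e1, e2, A.pt_j, hR τ, map_sub]
    abel

/-- the local point of a lifted section is divisible -/
theorem local_div {p : ℤ × ℤ} (A : SAct K M) {L : Type} [Field L] [CharZero L] [Algebra K L]
    {pl : Plc K M (AlgebraicClosure L)} (hpl : GeoPlc A pl)
    {red : ((sw (p.1 : K) (p.2 : K)).baseChange M).toAffine.Point →+
      AlgPt (sw (p.1 : K) (p.2 : K)) L}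
    (h1 : ∀ x y h, x ∉ pl.W → red (.some x y h) = 0)
    (h2 : ∀ x y h (hx : x ∈ pl.W), ∃ (hy : y ∈ pl.W)
      (h' : ((sw (p.1 : K) (p.2 : K)).baseChange (AlgebraicClosure L)).toAffine.Nonsingular
        (pl.ρ ⟨x, hx⟩) (pl.ρ ⟨y, hy⟩)), red (.some x y h) = .some _ _ h')
    {Q : ((sw (p.1 : K) (p.2 : K)).baseChange M).toAffine.Point}
    (hQ : ∀ τ, A.pt (p.1 : K) (p.2 : K) τ Q = Q) :
    ∃ z : ((sw (p.1 : K) (p.2 : K)).baseChange L).toAffine.Point,
      Pool.Agent.TH954.incl (sw (p.1 : K) (p.2 : K)) L z = red Q := by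
  refine exists_of_fixed _ (fun σ => ?_)
  refine (cocycle_local A hpl h1 h2 (Q := Q) (ξ := fun _ => 0) (fun σ => ?_)).2 Q hQ σ
  rw [map_zero, hQ, sub_self]

end Pool.Agent.U188.SC
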